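import Mathlib

namespace Pool.Agent.Results.MP_f8a98e_co.Counter

/-- The entry `w_j` (positions and values counted from 1). -/
def val {n : ℕ} (w : Equiv.Perm (Fin n)) (j : ℕ) : ℕ :=
  if h : 1 ≤ j ∧ j ≤ n then (w ⟨j - 1, by omega⟩ : ℕ) + 1 else 0

/-- The set of double descents. -/
def DDes {n : ℕ} (w : Equiv.Perm (Fin n)) : Finset ℕ :=
  (Finset.Icc 2 (n - 1)).filter fun i => val w (i - 1) > val w i ∧ val w i > val w (i + 1)

/-- `dd(I; n)`. -/
def dd (I : Finset ℕ) (n : ℕ) : ℕ :=
  (Finset.univ.filter fun w : Equiv.Perm (Fin n) => DDes w = I).card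

def tst (k a b c d e f g : ℕ) : Bool :=
  (decide (b < a) && decide (c < b)) == (k == 2) && (decide (c < b) && decide (d < c)) == (k == 3)
    && (decide (d < c) && decide (e < d)) == (k == 4)
    && (decide (e < d) && decide (f < e)) == (k == 5)
    && (decide (f < e) && decide (g < f)) == (k == 6)

lemma dd_eq (k : ℕ) (hk : 2 ≤ k) (hk' : k ≤ 6) : dd {k} 7 =
    (Finset.univ.filter fun w : Equiv.Perm (Fin 7) =>
      tst k (w 0) (w 1) (w 2) (w 3) (w 4) (w 5) (w 6) = true).card := by
  unfold dd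
  congr 1
  apply Finset.filter_congr
  intro w _
  have e : DDes w = {k} ↔ ∀ i ∈ Finset.Icc 2 6,
      ((val w (i - 1) > val w i ∧ val w i > val w (i + 1)) ↔ i = k) := by
    unfold DDes
    rw [Finset.ext_iff]
    simp only [Finset.mem_filter, Finset.mem_singleton, Finset.mem_Icc]
    constructor
    · intro h i hi
      rw [← h i]; tauto
    · intro h i
      constructor
      · rintro ⟨a, b⟩; exact (h i a).1 b
      · rintro rfl; exact ⟨⟨hk, hk'⟩, (h i ⟨hk, hk'⟩).2 rfl⟩
  rw [e, show Finset.Icc 2 6 = {2, 3, 4, 5, 6} from rfl]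
  simp only [Finset.mem_insert, Finset.mem_singleton, forall_eq_or_imp, forall_eq]
  have v1 : val w (2 - 1) = w 0 + 1 := rfl
  have v2 : val w 2 = w 1 + 1 := rfl
  have v3 : val w 3 = w 2 + 1 := rfl
  have v4 : val w 4 = w 3 + 1 := rfl
  have v5 : val w 5 = w 4 + 1 := rfl
  have v6 : val w 6 = w 5 + 1 := rfl
  have v7 : val w (6 + 1) = w 6 + 1 := rfl
  simp only [Nat.reduceSub, Nat.reduceAdd] at v1 v7 ⊢
  simp only [v1, v2, v3, v4, v5, v6, v7, gt_iff_lt, add_lt_add_iff_right]
  unfold tst
  interval_cases k <;> simp [and_assoc] <;> simp only [← not_lt] <;> tauto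

def T (k : ℕ) : List (Fin 7) → Bool
  | [a, b, c, d, e, f, g] => tst k a b c d e f g
  | _ => false

lemma card_eq (k : ℕ) : (Finset.univ.filter fun w : Equiv.Perm (Fin 7) =>
      tst k (w 0) (w 1) (w 2) (w 3) (w 4) (w 5) (w 6) = true).card
      = ((List.finRange 7).permutations'.filter (T k)).length := by
  have hnd : ((List.finRange 7).permutations'.filter (T k)).Nodup :=
    ((List.permutations_perm_permutations' _).nodup_iff.1
      (List.nodup_permutations _ (List.nodup_finRange 7))).filter _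
  rw [← List.toFinset_card_of_nodup hnd]
  apply Finset.card_bij (fun (w : Equiv.Perm (Fin 7)) _ => List.ofFn (fun i => w i))
  · intro w hw
    simp only [Finset.mem_filter, Finset.mem_univ, true_and] at hw
    simp only [List.mem_toFinset, List.mem_filter, List.mem_permutations']
    refine ⟨?_, ?_⟩
    · rw [List.ofFn_eq_map]; exact Equiv.Perm.map_finRange_perm w
    · simpa [List.ofFn_succ, T] using hw
  · intro a _ b _ h
    exact Equiv.ext (congrFun (List.ofFn_injective h))
  · intro l hl
    simp only [List.mem_toFinset, List.mem_filter, List.mem_permutations'] at hl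
    have hlen : l.length = 7 := by simpa using hl.1.length_eq
    have hn : l.Nodup := hl.1.nodup_iff.2 (List.nodup_finRange 7)
    let f : Fin 7 → Fin 7 := fun i => l.get (i.cast hlen.symm)
    have hf : Function.Injective f := fun i j hij => by
      have := (List.nodup_iff_injective_get.1 hn) hij
      exact Fin.cast_injective _ this
    have hl' : List.ofFn f = l := by
      apply List.ext_get (by simp [hlen])
      intro i h1 h2
      rw [List.get_ofFn]; rfl
    refine ⟨Equiv.ofBijective f (Finite.injective_iff_bijective.1 hf), ?_, hl'⟩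
    simp only [Finset.mem_filter, Finset.mem_univ, true_and]
    have := hl.2
    rw [← hl'] at this
    simpa [List.ofFn_succ, T] using this

set_option maxRecDepth 100000 in
lemma vals : ∀ p ∈ [(2, 426), (3, 363), (4, 462), (5, 363)],
    ((List.finRange 7).permutations'.filter (T p.1)).length = p.2 := by decide +kernel

lemma d2 : dd {2} 7 = 426 := by
  rw [dd_eq 2 (by norm_num) (by norm_num), card_eq]; exact vals (2, 426) (by simp)
lemma d3 : dd {3} 7 = 363 := by
  rw [dd_eq 3 (by norm_num) (by norm_num), card_eq]; exact vals (3, 363) (by simp)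
lemma d4 : dd {4} 7 = 462 := by
  rw [dd_eq 4 (by norm_num) (by norm_num), card_eq]; exact vals (4, 462) (by simp)
lemma d5 : dd {5} 7 = 363 := by
  rw [dd_eq 5 (by norm_num) (by norm_num), card_eq]; exact vals (5, 363) (by simp)

theorem result :
    (dd {2} 7 = 426 ∧ dd {3} 7 = 363 ∧ dd {4} 7 = 462 ∧ dd {5} 7 = 363) ∧
    ¬ ∀ n i : ℕ, 1 ≤ n → 1 ≤ i → (i : ℤ) < ⌈(n : ℚ) / 2⌉ - 1 →
      (Even i → (dd {i} n : ℚ) / dd {i + 1} n > (dd {i + 2} n : ℚ) / dd {i + 3} n) ∧
      (Odd i → (dd {i} n : ℚ) / dd {i + 1} n < (dd {i + 2} n : ℚ) / dd {i + 3} n) := by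
  refine ⟨⟨d2, d3, d4, d5⟩, fun h => ?_⟩
  have h1 := (h 7 2 (by norm_num) (by norm_num) (by
    have : ⌈((7 : ℕ) : ℚ) / 2⌉ = 4 := by rw [Int.ceil_eq_iff]; norm_num
    rw [this]; norm_num)).1 (by decide)
  simp only [Nat.reduceAdd, d2, d3, d4, d5] at h1
  norm_num at h1

end Pool.Agent.Results.MP_f8a98e_co.Counter
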